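import Pool.Agent.Helper515.PrimF

set_option autoImplicit false

namespace Pool.Agent.Results.MP_6f5fa7_al.LocallyFinitePrimitive

open PrimVar

/-- (1) A locally finite variety of groups is primitive if and only if all its finite `p`-groups
are abelian and it satisfies the centre condition.  (2) Every primitive variety of groups
(locally finite or not) has finite exponent and satisfies both conditions.  (3) A variety of
soluble groups is primitive if and only if it has finite exponent and satisfies both
conditions. -/
theorem result :
    (∀ W : Set Identity, IsLocallyFinite W →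
      (IsPrimitive W ↔ AbelianPGroups W ∧ CentreCondition W)) ∧
    (∀ W : Set Identity, IsPrimitive W →
      (∃ n : ℕ, 0 < n ∧ ∀ (G : Type) [Group G], InVariety W G → ∀ g : G, g ^ n = 1) ∧
        AbelianPGroups W ∧ CentreCondition W) ∧
    (∀ W : Set Identity, (∀ (G : Type) [Group G], InVariety W G → Group.IsSolvable G) →
      (IsPrimitive W ↔
        (∃ n : ℕ, 0 < n ∧ ∀ (G : Type) [Group G], InVariety W G → ∀ g : G, g ^ n = 1) ∧
        AbelianPGroups W ∧ CentreCondition W)) :=
  ⟨primitive_iff_of_locallyFinite,
    fun _ h => ⟨finite_exponent h, abelianPGroups_of_primitive h, centreCondition_of_primitive h⟩,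
    primitive_iff_of_soluble⟩

end Pool.Agent.Results.MP_6f5fa7_al.LocallyFinitePrimitive
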