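import Pool.Agent.Helper515.PrimH

set_option autoImplicit false

namespace Pool.Agent.Results.MP_6f5fa7_al.PrimitiveVarieties

open PrimVar

/-- Primitive varieties of groups.
(1) A locally finite variety is primitive if and only if all its finite `p`-groups are abelian
and it satisfies the centre condition.
(2) The variety generated by a finite group `X` is primitive if and only if all `p`-subgroups of
`X` are abelian and, for every prime `p` such that `X` has an element of order `p ^ 2`, no
subgroup `L` of `X` has a normal subgroup of index `p` containing the centre of `L`.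
(3) Every primitive variety (locally finite or not) has finite exponent and satisfies the two
conditions of (1).
(4) A variety of soluble groups is primitive if and only if it has finite exponent and satisfies
the two conditions of (1). -/
theorem result :
    (∀ W : Set Identity, IsLocallyFinite W →
      (IsPrimitive W ↔ AbelianPGroups W ∧ CentreCondition W)) ∧
    (∀ (X : Type) [Group X] [Finite X], IsPrimitive (lawsOf X) ↔
      (∀ p : ℕ, p.Prime → ∀ P : Subgroup X, IsPGroup p P → ∀ a ∈ P, ∀ b ∈ P, a * b = b * a) ∧
      (∀ p : ℕ, p.Prime → (∃ x : X, orderOf x = p ^ 2) →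
        ∀ L : Subgroup X, ∀ K : Subgroup L, K.Normal → K.index = p →
          ¬ (Subgroup.center L ≤ K))) ∧
    (∀ W : Set Identity, IsPrimitive W →
      (∃ n : ℕ, 0 < n ∧ ∀ (G : Type) [Group G], InVariety W G → ∀ g : G, g ^ n = 1) ∧
        AbelianPGroups W ∧ CentreCondition W) ∧
    (∀ W : Set Identity, (∀ (G : Type) [Group G], InVariety W G → Group.IsSolvable G) →
      (IsPrimitive W ↔
        (∃ n : ℕ, 0 < n ∧ ∀ (G : Type) [Group G], InVariety W G → ∀ g : G, g ^ n = 1) ∧
        AbelianPGroups W ∧ CentreCondition W)) :=
  ⟨primitive_iff_of_locallyFinite, fun X _ _ => primitive_var_iff X,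
    fun _ h => ⟨finite_exponent h, abelianPGroups_of_primitive h, centreCondition_of_primitive h⟩,
    primitive_iff_of_soluble⟩

end Pool.Agent.Results.MP_6f5fa7_al.PrimitiveVarieties
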